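import Pool.Agent.Helper63.LP.Spec

set_option autoImplicit false

noncomputable section

open MeasureTheory Set Filter Topology
open scoped ENNReal

namespace Pool.Agent.Helper29.LP.QFAC

open Pool.Agent.Helper77.LM Helper63.LP

/-- linear part of `X` -/
def Lm (m : ℕ) : (Fin m → ℝ) →ₗ[ℝ] (Fin m → ℝ) :=
  Matrix.toLin' (1 + Matrix.replicateCol Unit (fun _ : Fin m => (1 : ℝ)) *
    Matrix.replicateRow Unit (fun _ : Fin m => (1 : ℝ)))

lemma Lm_apply (m : ℕ) (w : Fin m → ℝ) (j : Fin m) : Lm m w j = w j + ∑ k, w k := by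
  simp [Lm, Matrix.toLin'_apply, Matrix.add_mulVec, Matrix.mulVec, dotProduct,
    Matrix.mul_apply]

lemma det_Lm (m : ℕ) : LinearMap.det (Lm m) = (m : ℝ) + 1 := by
  rw [Lm, LinearMap.det_toLin', Matrix.det_one_add_replicateCol_mul_replicateRow]
  simp [dotProduct]
  ring

lemma X_eq (m : ℕ) (w : Fin m → ℝ) : X w = Lm m w + fun _ => (-1 : ℝ) := by
  funext j
  simp only [X, Pi.add_apply, Lm_apply]
  ring

lemma bary_X (m : ℕ) (w : Fin m → ℝ) :
    bary (X w) = (Fin.cons (1 - ∑ k, w k) w : Fin (m + 1) → ℝ) := by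
  have ht : tt (X w) = 1 - ∑ k, w k := by
    simp only [tt, X, Finset.sum_sub_distrib, Finset.sum_const, Finset.card_univ,
      Fintype.card_fin, nsmul_eq_mul]
    have h : (m : ℝ) + 1 ≠ 0 := by positivity
    field_simp
    ring
  funext i
  refine Fin.cases ?_ (fun j => ?_) i
  · simp [ht]
  · simp [ht, X]

lemma X_mem (m : ℕ) (w : Fin m → ℝ) : X w ∈ Dl m ↔ w ∈ Sg m := by
  constructor
  · intro h
    refine ⟨fun j => ?_, ?_⟩
    · have := h j.succ
      rw [bary_X] at this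
      simpa using this
    · have := h 0
      rw [bary_X] at this
      simp only [Fin.cons_zero] at this
      linarith
  · rintro ⟨h1, h2⟩ i
    rw [bary_X]
    refine Fin.cases ?_ (fun j => ?_) i
    · simp only [Fin.cons_zero]; linarith
    · simpa using h1 j

lemma isClosed_Sg (m : ℕ) : IsClosed (Sg m) := by
  have h : Sg m = (X : (Fin m → ℝ) → (Fin m → ℝ)) ⁻¹' (Dl m) := by
    ext w; exact (X_mem m w).symm
  rw [h]
  refine isClosed_Dl.preimage ?_
  unfold X
  fun_prop

lemma cov (m : ℕ) (f : (Fin (m + 1) → ℝ) → ℝ) :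
    A m f = ((m : ℝ) + 1) * ∫ w in Sg m, f (Fin.cons (1 - ∑ k, w k) w) := by
  have hd : LinearMap.det (Lm m) ≠ 0 := by rw [det_Lm]; positivity
  have hinj : Function.Injective (Lm m) :=
    (LinearMap.equivOfDetNeZero (Lm m) hd).injective
  have hemb : MeasurableEmbedding (Lm m : (Fin m → ℝ) → (Fin m → ℝ)) :=
    (LinearMap.continuous_of_finiteDimensional _).measurableEmbedding hinj
  set G : (Fin m → ℝ) → ℝ := (Dl m).indicator (fun x => f (bary x)) with hG
  have h1 : A m f = ∫ x, G x := by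
    rw [A, hG, integral_indicator isClosed_Dl.measurableSet]
  have h2 : ∫ w : Fin m → ℝ, G (X w) = ((m : ℝ) + 1)⁻¹ * ∫ x, G x := by
    have h3 : ∫ x, G (x + fun _ => (-1 : ℝ)) ∂(Measure.map (Lm m) volume) =
        ∫ w, G (Lm m w + fun _ => (-1 : ℝ)) := hemb.integral_map _
    simp only [X_eq]
    rw [← h3, Measure.map_linearMap_addHaar_eq_smul_addHaar volume hd, integral_smul_measure,
      integral_add_right_eq_self (fun x => G x), det_Lm, smul_eq_mul,
      ENNReal.toReal_ofReal (abs_nonneg _), abs_of_pos (by positivity)]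
  have h4 : ∫ w : Fin m → ℝ, G (X w) = ∫ w in Sg m, f (Fin.cons (1 - ∑ k, w k) w) := by
    rw [← integral_indicator (isClosed_Sg m).measurableSet]
    refine integral_congr_ae (Eventually.of_forall fun w => ?_)
    by_cases hw : w ∈ Sg m
    · simp only [hG, indicator_of_mem ((X_mem m w).2 hw), indicator_of_mem hw, bary_X]
    · simp only [hG, indicator_of_notMem (fun h => hw ((X_mem m w).1 h)), indicator_of_notMem hw]
  rw [h1, ← h4, h2]
  have : (m : ℝ) + 1 ≠ 0 := by positivity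
  field_simp

lemma sg_nonneg {m : ℕ} {l : Fin (m + 1) → ℝ} (hl : l ∈ stdSimplex ℝ (Fin (m + 1))) :
    0 ≤ sg m l := by
  have h : ((m : ℝ) + 1) * Finset.univ.inf' ⟨0, Finset.mem_univ _⟩ l ≤ ∑ i, l i := by
    have h1 : ∑ _i : Fin (m + 1), Finset.univ.inf' ⟨0, Finset.mem_univ _⟩ l ≤ ∑ i, l i :=
      Finset.sum_le_sum fun i _ => Finset.inf'_le _ (Finset.mem_univ i)
    rw [Finset.sum_const, Finset.card_univ, Fintype.card_fin, nsmul_eq_mul] at h1
    push_cast at h1
    exact h1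
  rw [hl.2] at h
  unfold sg
  linarith

lemma cons_mem {m : ℕ} {w : Fin m → ℝ} (hw : w ∈ Sg m) :
    (Fin.cons (1 - ∑ k, w k) w : Fin (m + 1) → ℝ) ∈ stdSimplex ℝ (Fin (m + 1)) := by
  rw [← bary_X]
  exact bary_mem_std ((X_mem m w).2 hw)

lemma sg_low {k : ℕ} {w : Fin (k + 1) → ℝ} {δ : ℝ} (hw : ∀ j, 0 ≤ w j) (hs : ∑ j, w j ≤ δ) :
    1 - ((k : ℝ) + 2) * δ ≤ sg (k + 1) (Fin.cons (1 - ∑ j, w j) w) := by
  have h1 : w 0 ≤ δ := (Finset.single_le_sum (fun j _ => hw j) (Finset.mem_univ 0)).trans hs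
  have h2 : Finset.univ.inf' ⟨0, Finset.mem_univ _⟩ (Fin.cons (1 - ∑ j, w j) w : Fin (k + 2) → ℝ) ≤
      w 0 := by
    have := Finset.inf'_le (Fin.cons (1 - ∑ j, w j) w : Fin (k + 2) → ℝ)
      (Finset.mem_univ (Fin.succ (0 : Fin (k + 1))))
    simpa using this
  unfold sg
  push_cast
  nlinarith

lemma sg_perm {m : ℕ} (σ : Equiv.Perm (Fin (m + 1))) (l : Fin (m + 1) → ℝ) :
    sg m (fun i => l (σ i)) = sg m l := by
  have h : Finset.univ.inf' ⟨0, Finset.mem_univ _⟩ (fun i => l (σ i)) =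
      Finset.univ.inf' ⟨0, Finset.mem_univ _⟩ l := by
    apply le_antisymm
    · refine Finset.le_inf' _ _ fun i _ => ?_
      have := Finset.inf'_le (fun i => l (σ i)) (Finset.mem_univ (σ.symm i))
      simpa using this
    · exact Finset.le_inf' _ _ fun i _ => Finset.inf'_le _ (Finset.mem_univ (σ i))
  unfold sg
  rw [h]

lemma continuous_sg (m : ℕ) : Continuous (sg m) := by
  unfold sg
  have : Continuous fun l : Fin (m + 1) → ℝ => Finset.univ.inf' ⟨0, Finset.mem_univ _⟩ l := by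
    have h := Continuous.finset_inf'_apply (s := (Finset.univ : Finset (Fin (m + 1))))
      ⟨0, Finset.mem_univ _⟩ (f := fun i (l : Fin (m + 1) → ℝ) => l i)
      (fun i _ => continuous_apply i)
    simpa [Finset.inf'_apply] using h
  fun_prop

lemma measurableSet_Ort_le (n : ℕ) (δ : ℝ) :
    MeasurableSet {w : Fin n → ℝ | w ∈ Ort n ∧ ∑ j, w j ≤ δ} := by
  have h1 : IsClosed (Ort n) := by
    have : Ort n = ⋂ j, {w : Fin n → ℝ | 0 ≤ w j} := by ext w; simp [Ort]
    rw [this]
    exact isClosed_iInter fun j => isClosed_le continuous_const (continuous_apply j)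
  have h2 : IsClosed {w : Fin n → ℝ | ∑ j, w j ≤ δ} :=
    isClosed_le (by fun_prop) continuous_const
  exact (h1.inter h2).measurableSet

lemma inner (hORT : S_ORT) (k : ℕ) {p a δ : ℝ} (hp : 0 < p) (ha : 0 < a) (hδ0 : 0 ≤ δ)
    (hδ1 : ((k : ℝ) + 2) * δ ≤ 1) (e : Fin (k + 2) → ℝ) (he : ∀ j, a ≤ e j) (i : Fin (k + 2)) :
    ((k : ℝ) + 2) * ((1 - ((k : ℝ) + 2) * δ) *
      ((1 - ((k : ℝ) + 1) * Real.exp (-(p * a * δ / ((k : ℝ) + 1)))) *
        ∏ t : Fin (k + 1), (1 / (p * e (Equiv.swap 0 i t.succ))))) ≤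
      A (k + 1) (fun l => Real.exp (-(p * ∑ j, e j * (if j = i then 0 else l j))) *
        sg (k + 1) l) := by
  set σ : Equiv.Perm (Fin (k + 2)) := Equiv.swap 0 i with hσ
  set e' : Fin (k + 1) → ℝ := fun t => e (σ t.succ) with he'
  have hpos : ∀ j, 0 < e' j := fun j => ha.trans_le (he _)
  obtain ⟨h1, h2, h3, -, -, -⟩ := hORT (k + 1) p e' (by omega) hp hpos
  have h3' := h3 δ hδ0
  have key : A (k + 1) (fun l => Real.exp (-(p * ∑ j, e j * (if j = i then 0 else l j))) *
        sg (k + 1) l) = (((k + 1 : ℕ) : ℝ) + 1) * ∫ w in Sg (k + 1),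
          Real.exp (-(p * ∑ j, e' j * w j)) * sg (k + 1) (Fin.cons (1 - ∑ j, w j) w) := by
    rw [← A_perm σ, cov]
    congr 1
    refine integral_congr_ae (Eventually.of_forall fun w => ?_)
    simp only
    rw [sg_perm σ]
    congr 3
    congr 1
    rw [← Equiv.sum_comp σ (fun j => e j * (if j = i then 0 else
      (Fin.cons (1 - ∑ k, w k) w : Fin (k + 2) → ℝ) (σ j)))]
    rw [Fin.sum_univ_succ]
    have e0 : σ 0 = i := Equiv.swap_apply_left 0 i
    rw [if_pos e0, mul_zero, zero_add]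
    refine Finset.sum_congr rfl fun t _ => ?_
    have e1 : σ t.succ ≠ i := by
      rw [← e0]
      exact fun h => Fin.succ_ne_zero t (σ.injective h)
    rw [if_neg e1, hσ, Equiv.swap_apply_self, Fin.cons_succ]
  have hint : IntegrableOn (fun w : Fin (k + 1) → ℝ => Real.exp (-(p * ∑ j, e' j * w j)) *
      sg (k + 1) (Fin.cons (1 - ∑ j, w j) w)) (Sg (k + 1)) := by
    have hc : IsCompact (Sg (k + 1)) := by
      refine Metric.isCompact_of_isClosed_isBounded (isClosed_Sg _) ?_
      refine (Metric.isBounded_closedBall (x := (0 : Fin (k + 1) → ℝ)) (r := 1)).subset ?_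
      rintro w ⟨hw1, hw2⟩
      rw [mem_closedBall_zero_iff, pi_norm_le_iff_of_nonneg zero_le_one]
      intro j
      rw [Real.norm_eq_abs, abs_of_nonneg (hw1 j)]
      exact (Finset.single_le_sum (fun j _ => hw1 j) (Finset.mem_univ j)).trans hw2
    refine (Continuous.continuousOn ?_).integrableOn_compact hc
    refine Continuous.mul (by fun_prop) ((continuous_sg _).comp ?_)
    refine continuous_pi fun j => ?_
    refine Fin.cases ?_ (fun t => ?_) j
    · simp only [Fin.cons_zero]; fun_prop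
    · simp only [Fin.cons_succ]; fun_prop
  have hsub : {w : Fin (k + 1) → ℝ | w ∈ Ort (k + 1) ∧ ∑ j, w j ≤ δ} ⊆ Sg (k + 1) := by
    rintro w ⟨hw1, hw2⟩
    refine ⟨hw1, hw2.trans ?_⟩
    have : (0 : ℝ) ≤ k := Nat.cast_nonneg k
    nlinarith
  have low : (1 - ((k : ℝ) + 2) * δ) * Ex p {w | w ∈ Ort (k + 1) ∧ ∑ j, w j ≤ δ} e' ≤
      ∫ w in Sg (k + 1),
          Real.exp (-(p * ∑ j, e' j * w j)) * sg (k + 1) (Fin.cons (1 - ∑ j, w j) w) := by
    calc _ = ∫ w in {w : Fin (k + 1) → ℝ | w ∈ Ort (k + 1) ∧ ∑ j, w j ≤ δ},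
          (1 - ((k : ℝ) + 2) * δ) * Real.exp (-(p * ∑ j, e' j * w j)) := by
          rw [integral_const_mul]; rfl
      _ ≤ ∫ w in {w : Fin (k + 1) → ℝ | w ∈ Ort (k + 1) ∧ ∑ j, w j ≤ δ},
          Real.exp (-(p * ∑ j, e' j * w j)) * sg (k + 1) (Fin.cons (1 - ∑ j, w j) w) := by
          refine setIntegral_mono_on ?_ (hint.mono_set hsub) (measurableSet_Ort_le _ _) ?_
          · exact (h1.mono_set fun w hw => hw.1).const_mul _
          · rintro w ⟨hw1, hw2⟩
            rw [mul_comm]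
            exact mul_le_mul_of_nonneg_left (sg_low hw1 hw2) (Real.exp_pos _).le
      _ ≤ _ := by
          refine setIntegral_mono_set hint ?_ (HasSubset.Subset.eventuallyLE hsub)
          refine (ae_restrict_iff' (isClosed_Sg _).measurableSet).2 (Eventually.of_forall ?_)
          intro w hw
          exact mul_nonneg (Real.exp_pos _).le (sg_nonneg (cons_mem hw))
  rw [key]
  have hk : (((k + 1 : ℕ) : ℝ) + 1) = (k : ℝ) + 2 := by push_cast; ring
  rw [hk]
  have hk0 : (0 : ℝ) ≤ k := Nat.cast_nonneg k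
  refine mul_le_mul_of_nonneg_left (le_trans ?_ low) (by linarith)
  refine mul_le_mul_of_nonneg_left (le_trans ?_ h3') (by linarith)
  refine mul_le_mul_of_nonneg_right ?_ (Finset.prod_nonneg fun t _ =>
    (one_div_pos.2 (mul_pos hp (hpos t))).le)
  have h5 : ∑ j : Fin (k + 1), Real.exp (-(p * e' j * δ / ((k + 1 : ℕ) : ℝ))) ≤
      ∑ _j : Fin (k + 1), Real.exp (-(p * a * δ / ((k : ℝ) + 1))) := by
    refine Finset.sum_le_sum fun j _ => Real.exp_le_exp.2 (neg_le_neg ?_)
    push_cast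
    have : a ≤ e' j := he _
    gcongr
  rw [Finset.sum_const, Finset.card_univ, Fintype.card_fin, nsmul_eq_mul] at h5
  push_cast at h5 ⊢
  linarith

lemma isCompact_Sg (m : ℕ) : IsCompact (Sg m) := by
  refine Metric.isCompact_of_isClosed_isBounded (isClosed_Sg _) ?_
  refine (Metric.isBounded_closedBall (x := (0 : Fin m → ℝ)) (r := 1)).subset ?_
  rintro w ⟨hw1, hw2⟩
  rw [mem_closedBall_zero_iff, pi_norm_le_iff_of_nonneg zero_le_one]
  intro j
  rw [Real.norm_eq_abs, abs_of_nonneg (hw1 j)]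
  exact (Finset.single_le_sum (fun j _ => hw1 j) (Finset.mem_univ j)).trans hw2

lemma vol_Sg_pos (m : ℕ) : 0 < volume (Sg m) := by
  have h := cov m (fun _ => (1 : ℝ))
  rw [A_one] at h
  rw [pos_iff_ne_zero]
  intro h0
  rw [Measure.restrict_eq_zero.2 h0, integral_zero_measure, mul_zero] at h
  exact (V_pos m).ne' h

lemma Ex_cont (m : ℕ) (p : ℝ) : Continuous (fun e : Fin m → ℝ => Ex p (Sg m) e) := by
  unfold Ex
  refine continuous_parametric_integral_of_continuous ?_ (isCompact_Sg m)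
  unfold Function.uncurry
  fun_prop

lemma Ex_pos (m : ℕ) (p : ℝ) (e : Fin m → ℝ) : 0 < Ex p (Sg m) e := by
  unfold Ex
  rw [setIntegral_pos_iff_support_of_nonneg_ae]
  · have : (Function.support fun w : Fin m → ℝ => Real.exp (-(p * ∑ j, e j * w j))) = univ := by
      ext w; simp [Real.exp_ne_zero]
    rw [this, univ_inter]
    exact vol_Sg_pos m
  · exact Eventually.of_forall fun w => (Real.exp_pos _).le
  · exact (Continuous.continuousOn (by fun_prop)).integrableOn_compact (isCompact_Sg m)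

lemma isCompact_Xi (n : ℕ) (a b : ℝ) : IsCompact (Xi n a b) := by
  have : Xi n a b = Set.pi univ fun _ => Icc a b := by
    ext e
    simp only [Xi, mem_setOf_eq, Set.mem_pi, mem_univ, true_implies, mem_Icc]
  rw [this]
  exact isCompact_univ_pi fun _ => isCompact_Icc

/-- the integrand of the vertex `i` of the facet -/
def Ps (k : ℕ) (p : ℝ) (i : Fin (k + 2)) (x : Fin (k + 1) → ℝ) (e : Fin (k + 2) → ℝ) : ℝ :=
  Real.exp (-((∑ j, e j) / (((k + 2 : ℕ) : ℝ) + 1))) *
    Real.exp (-(p * ∑ j : Fin (k + 2), e j * (if j = i then 0 else bary x j))) /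
      Ex p (Sg (k + 2)) e * sg (k + 1) (bary x)

lemma Ps_cont (k : ℕ) (p : ℝ) (i : Fin (k + 2)) :
    Continuous (fun q : (Fin (k + 1) → ℝ) × (Fin (k + 2) → ℝ) => Ps k p i q.1 q.2) := by
  unfold Ps
  refine Continuous.mul (Continuous.div ?_ ((Ex_cont _ _).comp continuous_snd)
    fun q => (Ex_pos _ _ _).ne') ((continuous_sg _).comp (continuous_bary.comp continuous_fst))
  refine Continuous.mul (by fun_prop) (Real.continuous_exp.comp (Continuous.neg
    (continuous_const.mul (continuous_finset_sum _ fun j _ => ?_))))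
  by_cases h : j = i
  · simp only [h, if_true, mul_zero]; exact continuous_const
  · simp only [h, if_false]
    exact ((continuous_apply j).comp continuous_snd).mul
      ((continuous_apply j).comp (continuous_bary.comp continuous_fst))

lemma swap_term (k : ℕ) (i : Fin (k + 2)) (l : Fin (k + 2) → ℝ) (j : Fin (k + 2)) :
    (Fin.cons 0 l : Fin (k + 3) → ℝ) (Equiv.swap 0 i.succ j.succ) = if j = i then 0 else l j := by
  by_cases h : j = i
  · subst h
    simp
  · rw [if_neg h, Equiv.swap_apply_of_ne_of_ne (Fin.succ_ne_zero j)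
      (fun h' => h (Fin.succ_injective _ h')), Fin.cons_succ]

lemma Ts_qq (k : ℕ) (p a b : ℝ) {x : Fin (k + 1) → ℝ} (hx : x ∈ Dl (k + 1)) :
    ∑ i : Fin (k + 2), 1 / (((k + 2 : ℕ) : ℝ) + 1) ^ (k + 2 + 1) *
      ∫ e in Xi (k + 2) a b, Ps k p i x e ≤
    Ts 1 (qq (n := k + 2) p a b) (bary x) * sg (k + 1) (bary x) := by
  have hb := bary_mem_std hx
  have hc : bary ((1 : ℝ) • bary x) = (Fin.cons 0 (bary x) : Fin (k + 3) → ℝ) := by
    have ht : tt ((1 : ℝ) • bary x) = 0 := by rw [tt_smul_std hb]; simp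
    funext j
    refine Fin.cases ?_ (fun t => ?_) j
    · rw [bary_zero, ht, Fin.cons_zero]
    · rw [bary_succ, ht, Fin.cons_succ]; simp
  have hs := sg_nonneg hb
  rw [Ts, hc, qq, Finset.sum_mul, Fin.sum_univ_succ (n := k + 2)]
  refine le_trans (le_of_eq ?_) (le_add_of_nonneg_left ?_)
  · refine Finset.sum_congr rfl fun i _ => ?_
    rw [mul_assoc, ← integral_mul_const]
    congr 1
    refine integral_congr_ae (Eventually.of_forall fun e => ?_)
    simp only [Ps, swap_term]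
  · refine mul_nonneg (mul_nonneg (by positivity) (integral_nonneg fun e => ?_)) hs
    exact div_nonneg (mul_nonneg (Real.exp_pos _).le (Real.exp_pos _).le) (Ex_pos _ _ _).le

lemma Ex_le (hORT : S_ORT) {n : ℕ} (hn : 0 < n) {p : ℝ} (hp : 0 < p) {e : Fin n → ℝ}
    (he : ∀ j, 0 < e j) : Ex p (Sg n) e ≤ ∏ j, (1 / (p * e j)) := by
  obtain ⟨h1, h2, -⟩ := hORT n p e hn hp he
  rw [← h2]
  unfold Ex
  refine setIntegral_mono_set h1 (Eventually.of_forall fun w => (Real.exp_pos _).le) ?_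
  exact HasSubset.Subset.eventuallyLE fun w hw => hw.1

theorem main (hORT : S_ORT) (hBOX : S_BOX) (hVOLV : S_VOLV) (hQCLS : S_QCLS) : S_QFAC := by
  intro k τ hτ0 hτ1
  obtain ⟨a, b, ha, hab, hbox⟩ := hBOX (k + 2) (τ / 4) (by linarith) (by linarith)
  have hk0 : (0 : ℝ) ≤ k := Nat.cast_nonneg k
  set δ : ℝ := τ / (4 * ((k : ℝ) + 2)) with hδ
  have hδ0 : 0 < δ := by positivity
  have hkδ : ((k : ℝ) + 2) * δ = τ / 4 := by rw [hδ]; field_simp
  have hlim : Tendsto (fun p : ℝ => ((k : ℝ) + 1) * Real.exp (-(p * a * δ / ((k : ℝ) + 1))))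
      atTop (𝓝 (((k : ℝ) + 1) * 0)) := by
    refine Tendsto.const_mul _ (Real.tendsto_exp_neg_atTop_nhds_zero.comp ?_)
    have : (fun p : ℝ => p * a * δ / ((k : ℝ) + 1)) = fun p => p * (a * δ / ((k : ℝ) + 1)) := by
      funext p; ring
    rw [this]
    exact tendsto_id.atTop_mul_const (by positivity)
  rw [mul_zero] at hlim
  obtain ⟨p1, hp1⟩ := eventually_atTop.1 (hlim.eventually_le_const (show (0 : ℝ) < τ / 4 by
    linarith))
  refine ⟨a, b, max p1 1, ha, hab, le_max_right _ _, fun p hp => ?_⟩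
  have hpp : p1 ≤ p := (le_max_left _ _).trans hp
  have hp0 : 0 < p := lt_of_lt_of_le one_pos ((le_max_right _ _).trans hp)
  have hexp := hp1 p hpp
  set c : ℝ := (((k + 2 : ℕ) : ℝ) + 1) ^ (k + 2 + 1) with hc
  have hcpos : 0 < c := by positivity
  -- integrability
  have hprod : ∀ i, IntegrableOn (fun q : (Fin (k + 1) → ℝ) × (Fin (k + 2) → ℝ) =>
      Ps k p i q.1 q.2) (Dl (k + 1) ×ˢ Xi (k + 2) a b) (volume.prod volume) := fun i =>
    (Ps_cont k p i).continuousOn.integrableOn_compact (isCompact_Dl.prod (isCompact_Xi _ _ _))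
  have hprod' : ∀ i, Integrable (Function.uncurry (Ps k p i))
      ((volume.restrict (Dl (k + 1))).prod (volume.restrict (Xi (k + 2) a b))) := fun i => by
    rw [Measure.prod_restrict]
    exact hprod i
  -- one vertex
  have one : ∀ i : Fin (k + 2), c * (p * (((k : ℝ) + 2) * (1 - τ / 4) ^ 3)) ≤
      ∫ x in Dl (k + 1), ∫ e in Xi (k + 2) a b, Ps k p i x e := by
    intro i
    rw [integral_integral_swap (hprod' i)]
    have hlow : ∀ e ∈ Xi (k + 2) a b,
        (p * (((k : ℝ) + 2) * (1 - τ / 4) ^ 2)) *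
          (Real.exp (-((∑ j, e j) / (((k + 2 : ℕ) : ℝ) + 1))) * e i) ≤
        ∫ x in Dl (k + 1), Ps k p i x e := by
      intro e he
      have hea : ∀ j, a ≤ e j := fun j => (he j).1
      have hepos : ∀ j, 0 < e j := fun j => ha.trans_le (hea j)
      have hin := inner hORT k hp0 ha hδ0.le (by rw [hkδ]; linarith) e hea i
      have h1 : ∫ x in Dl (k + 1), Ps k p i x e =
          Real.exp (-((∑ j, e j) / (((k + 2 : ℕ) : ℝ) + 1))) / Ex p (Sg (k + 2)) e *
          A (k + 1) (fun l => Real.exp (-(p * ∑ j, e j * (if j = i then 0 else l j))) *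
            sg (k + 1) l) := by
        rw [A, ← integral_const_mul]
        refine integral_congr_ae (Eventually.of_forall fun x => ?_)
        simp only [Ps]
        ring
      rw [h1]
      set Q : ℝ := ∏ t : Fin (k + 1), (1 / (p * e (Equiv.swap 0 i t.succ))) with hQ
      have hQpos : 0 < Q := Finset.prod_pos fun t _ => one_div_pos.2 (mul_pos hp0 (hepos _))
      have hP : ∏ j, (1 / (p * e j)) = 1 / (p * e i) * Q := by
        rw [← Equiv.prod_comp (Equiv.swap 0 i) (fun j => 1 / (p * e j)), Fin.prod_univ_succ,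
          Equiv.swap_apply_left]
      have hEx : Ex p (Sg (k + 2)) e ≤ 1 / (p * e i) * Q := by
        rw [← hP]; exact Ex_le hORT (by omega) hp0 hepos
      have hExp := Ex_pos (k + 2) p e
      have hpe : 0 < p * e i := mul_pos hp0 (hepos i)
      have hA : ((k : ℝ) + 2) * ((1 - τ / 4) * ((1 - τ / 4) * Q)) ≤
          A (k + 1) (fun l => Real.exp (-(p * ∑ j, e j * (if j = i then 0 else l j))) *
            sg (k + 1) l) := by
        refine le_trans ?_ hin
        rw [hkδ]
        have : (1 - τ / 4) * Q ≤ (1 - ((k : ℝ) + 1) *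
            Real.exp (-(p * a * δ / ((k : ℝ) + 1)))) * Q :=
          mul_le_mul_of_nonneg_right (by linarith) hQpos.le
        have h2 : (1 - τ / 4) * ((1 - τ / 4) * Q) ≤ (1 - τ / 4) * ((1 - ((k : ℝ) + 1) *
            Real.exp (-(p * a * δ / ((k : ℝ) + 1)))) * Q) :=
          mul_le_mul_of_nonneg_left this (by linarith)
        exact mul_le_mul_of_nonneg_left h2 (by linarith)
      have hEinv : p * e i / Q ≤ 1 / Ex p (Sg (k + 2)) e := by
        rw [div_le_div_iff₀ hQpos hExp]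
        have h3 : p * e i * Ex p (Sg (k + 2)) e ≤ p * e i * (1 / (p * e i) * Q) :=
          mul_le_mul_of_nonneg_left hEx hpe.le
        have h4 : p * e i * (1 / (p * e i) * Q) = 1 * Q := by
          rw [← mul_assoc, mul_one_div_cancel hpe.ne']
        rw [h4] at h3
        exact h3
      have hE0 : 0 < Real.exp (-((∑ j, e j) / (((k + 2 : ℕ) : ℝ) + 1))) := Real.exp_pos _
      have hq : p * e i / Q * Q = p * e i := div_mul_cancel₀ _ hQpos.ne'
      calc _ = Real.exp (-((∑ j, e j) / (((k + 2 : ℕ) : ℝ) + 1))) *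
            ((((k : ℝ) + 2) * (1 - τ / 4) ^ 2) * (p * e i)) := by ring
        _ = Real.exp (-((∑ j, e j) / (((k + 2 : ℕ) : ℝ) + 1))) *
            ((((k : ℝ) + 2) * (1 - τ / 4) ^ 2) * (p * e i / Q * Q)) := by rw [hq]
        _ = Real.exp (-((∑ j, e j) / (((k + 2 : ℕ) : ℝ) + 1))) * ((p * e i / Q) *
            (((k : ℝ) + 2) * ((1 - τ / 4) * ((1 - τ / 4) * Q)))) := by ring
        _ ≤ Real.exp (-((∑ j, e j) / (((k + 2 : ℕ) : ℝ) + 1))) * ((1 / Ex p (Sg (k + 2)) e) *
            A (k + 1) (fun l => Real.exp (-(p * ∑ j, e j * (if j = i then 0 else l j))) *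
              sg (k + 1) l)) := by
            refine mul_le_mul_of_nonneg_left (mul_le_mul hEinv hA ?_ ?_) hE0.le
            · have : 0 ≤ 1 - τ / 4 := by linarith
              positivity
            · positivity
        _ = _ := by ring
    calc c * (p * (((k : ℝ) + 2) * (1 - τ / 4) ^ 3)) =
          (p * (((k : ℝ) + 2) * (1 - τ / 4) ^ 2)) * ((1 - τ / 4) * c) := by ring
      _ ≤ (p * (((k : ℝ) + 2) * (1 - τ / 4) ^ 2)) * ∫ e in Xi (k + 2) a b,
            (Real.exp (-((∑ j, e j) / (((k + 2 : ℕ) : ℝ) + 1))) * e i) :=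
          mul_le_mul_of_nonneg_left (hbox i) (by positivity)
      _ = ∫ e in Xi (k + 2) a b, (p * (((k : ℝ) + 2) * (1 - τ / 4) ^ 2)) *
            (Real.exp (-((∑ j, e j) / (((k + 2 : ℕ) : ℝ) + 1))) * e i) := by
          rw [integral_const_mul]
      _ ≤ _ := by
          refine setIntegral_mono_on ?_ ?_ (isCompact_Xi _ _ _).measurableSet hlow
          · exact (Continuous.continuousOn (by fun_prop)).integrableOn_compact (isCompact_Xi _ _ _)
          · exact (hprod' i).integral_prod_right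
  -- sum over the vertices
  have hcls := (hQCLS (k + 2) p a b hp0 ha hab).1
  have hbd1 : Bd (k + 1) (Ts 1 (qq (n := k + 2) p a b)) := by
    have := hcls.toBd.ts (s := 1) zero_le_one le_rfl
    exact this
  have hbd2 : Bd (k + 1) (sg (k + 1)) := by
    refine ⟨(continuous_sg _).measurable, fun σ l => sg_perm σ l, ⟨1, fun l hl => ?_⟩⟩
    rw [abs_of_nonneg (sg_nonneg hl)]
    unfold sg
    have : 0 ≤ Finset.univ.inf' ⟨0, Finset.mem_univ _⟩ l :=
      Finset.le_inf' _ _ fun i _ => hl.1 i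
    push_cast
    nlinarith
  have hI := (hbd1.mul hbd2).integrableOn
  have hsum : ∑ i : Fin (k + 2), 1 / c * ∫ x in Dl (k + 1), ∫ e in Xi (k + 2) a b, Ps k p i x e ≤
      A (k + 1) (fun l => Ts 1 (qq (n := k + 2) p a b) l * sg (k + 1) l) := by
    have h1 : ∑ i : Fin (k + 2), 1 / c * ∫ x in Dl (k + 1), ∫ e in Xi (k + 2) a b, Ps k p i x e =
        ∫ x in Dl (k + 1), ∑ i : Fin (k + 2), 1 / c * ∫ e in Xi (k + 2) a b, Ps k p i x e := by
      rw [integral_finset_sum]
      · refine Finset.sum_congr rfl fun i _ => ?_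
        rw [integral_const_mul]
      · exact fun i _ => ((hprod' i).integral_prod_left).const_mul _
    rw [h1, A]
    refine setIntegral_mono_on ?_ hI isClosed_Dl.measurableSet ?_
    · exact integrable_finset_sum _ fun i _ => ((hprod' i).integral_prod_left).const_mul _
    · intro x hx
      exact Ts_qq k p a b hx
  refine le_trans ?_ hsum
  have h2 : ∑ _i : Fin (k + 2), 1 / c * (c * (p * (((k : ℝ) + 2) * (1 - τ / 4) ^ 3))) ≤
      ∑ i : Fin (k + 2), 1 / c * ∫ x in Dl (k + 1), ∫ e in Xi (k + 2) a b, Ps k p i x e :=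
    Finset.sum_le_sum fun i _ => mul_le_mul_of_nonneg_left (one i) (by positivity)
  refine le_trans ?_ h2
  rw [Finset.sum_const, Finset.card_univ, Fintype.card_fin, nsmul_eq_mul, (hVOLV (k + 1)).1]
  have hf : ((k + 2).factorial : ℝ) = ((k : ℝ) + 2) * ((k + 1).factorial : ℝ) := by
    rw [Nat.factorial_succ]; push_cast; ring
  have hfp : (0 : ℝ) < ((k + 1).factorial : ℝ) := by positivity
  rw [hf]
  push_cast
  have h3 : 1 - τ ≤ (1 - τ / 4) ^ 3 := by
    nlinarith [sq_nonneg (τ / 4), mul_pos hτ0 hτ0]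
  have e1 : (1 - τ) * (((k : ℝ) + 2) * ((k + 1).factorial : ℝ)) * p *
      (((k : ℝ) + 1 + 1) / ((k + 1).factorial : ℝ)) =
      (((k : ℝ) + 2) * p * ((k : ℝ) + 2)) * (1 - τ) := by
    field_simp
    ring
  have e2 : ((k : ℝ) + 2) * (1 / c * (c * (p * (((k : ℝ) + 2) * (1 - τ / 4) ^ 3)))) =
      (((k : ℝ) + 2) * p * ((k : ℝ) + 2)) * (1 - τ / 4) ^ 3 := by
    field_simp
  rw [e1, e2]
  exact mul_le_mul_of_nonneg_left h3 (by positivity)

end Pool.Agent.Helper29.LP.QFAC
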